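import Mathlib
import Pool.Agent.H496.B3.Whit

/-! An exact Petersson formula. -/

set_option autoImplicit false
set_option linter.unusedSectionVars false

namespace Pool.Agent.H496

open MeasureTheory Set Function Module
open scoped ENNReal NNReal ComplexConjugate

section unfolding
variable {H : Type*} [Group H] [MeasurableSpace H] [MeasurableMul H] {Γ : Subgroup H} [Countable Γ]
  {μ : Measure H} [SFinite μ] [μ.IsMulLeftInvariant] {F : Set H}

theorem unfold_eq (hF : IsFundamentalDomain Γ F μ) {q : H → ℂ} (hqm : Measurable q) (hq : Integrable q μ) :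
    ∫ h, q h ∂μ = ∫ h in F, ∑' γ : Γ, q ((γ : H) * h) ∂μ := by
  have h1 := hF.integral_eq_tsum'' q hq
  have h2 := hF.lintegral_eq_tsum'' (fun h => ‖q h‖ₑ)
  rw [h1]
  symm
  refine integral_tsum (fun γ => ?_) ?_
  · exact (hqm.comp (measurable_const_mul (γ : H))).aestronglyMeasurable
  · have : ∑' γ : Γ, ∫⁻ h in F, ‖q ((γ : H) * h)‖ₑ ∂μ = ∫⁻ h, ‖q h‖ₑ ∂μ := h2.symm
    rw [this]
    exact hq.2.ne

/-- If a function is supported on a set that meets each orbit at most once then it may be multiplied by an invariant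
square integrable function. -/
theorem integrable_supp (hF : MeasurableSet F) (hcov : ∀ᵐ h ∂μ, ∃ γ : Γ, (γ : H) * h ∈ F) {f : H → ℂ}
    (hfm : Measurable f) (hf : ∀ (γ : Γ) h, f (γ * h) = f h) (hf2 : ∫⁻ h in F, ENNReal.ofReal (‖f h‖ ^ 2) ∂μ ≠ ∞)
    {B : Set H} (hB : MeasurableSet B) (hinj : ∀ (γ : Γ) (h : H), h ∈ B → (γ : H) * h ∈ B → γ = 1)
    {Q : H → ℂ} (hQm : Measurable Q) (hQB : ∀ h ∉ B, Q h = 0) (hQ : Integrable (fun h => ‖Q h‖ ^ 2) μ) :
    Integrable (fun h => Q h * f h) μ := by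
  have h1 := unfold_group μ (fun (γ : Γ) (h : H) => (γ : H) * h) (fun h => by simp)
    (fun γ γ' h => by simp [mul_assoc]) (fun γ => measurePreserving_mul_left μ (γ : H)) hB hF
    (H := fun h => ENNReal.ofReal (‖f h‖ ^ 2)) ((hfm.norm.pow_const 2).ennreal_ofReal)
    (fun γ h => by simp_rw [hf]) (by filter_upwards [hcov] with h hh _ using hh) (M := 1) (fun h _ => by
      refine tsum_le_one_of_unique (fun (γ : Γ) (h : H) => (γ : H) * h) h fun γ γ' h1 h2 => ?_
      have key := hinj (γ' * γ⁻¹) _ h1 (by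
        rw [← mul_assoc, ← Subgroup.coe_mul, inv_mul_cancel_right]
        exact h2)
      exact (mul_inv_eq_one.1 key).symm)
  rw [one_mul] at h1
  have h2 : MemLp (B.indicator f) 2 μ := by
    rw [memLp_indicator_iff_restrict hB, memLp_two_iff_integrable_sq_norm hfm.aestronglyMeasurable]
    refine ⟨((hfm.norm).pow_const 2).aestronglyMeasurable, ?_⟩
    rw [hasFiniteIntegral_iff_ofReal (Filter.Eventually.of_forall fun s => sq_nonneg _)]
    exact lt_of_le_of_lt h1 hf2.lt_top
  have h3 : MemLp Q 2 μ := (memLp_two_iff_integrable_sq_norm hQm.aestronglyMeasurable).2 hQ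
  refine (h3.integrable_mul h2).congr (Filter.Eventually.of_forall fun h => ?_)
  show Q h * B.indicator f h = Q h * f h
  by_cases hb : h ∈ B
  · rw [indicator_of_mem hb]
  · rw [hQB h hb, zero_mul, zero_mul]

/-- The sum over the orbit. -/
noncomputable def orb (Γ : Subgroup H) (Q : H → ℂ) (h : H) : ℂ := ∑' γ : Γ, Q ((γ : H) * h)

theorem orb_mul {B : Set H} (hinj : ∀ (γ : Γ) (h : H), h ∈ B → (γ : H) * h ∈ B → γ = 1) {Q Q' : H → ℂ}
    (hQ : ∀ h ∉ B, Q h = 0) (hQ' : ∀ h ∉ B, Q' h = 0) (h : H) :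
    orb Γ (fun h => Q h * conj (Q' h)) h = orb Γ Q h * conj (orb Γ Q' h) := by
  by_cases hne : ∃ γ₀ : Γ, (γ₀ : H) * h ∈ B
  · obtain ⟨γ₀, hγ₀⟩ := hne
    have hz : ∀ γ : Γ, γ ≠ γ₀ → (γ : H) * h ∉ B := by
      intro γ hγ hcon
      apply hγ
      have key := hinj (γ * γ₀⁻¹) _ hγ₀ (by
        rw [← mul_assoc, ← Subgroup.coe_mul, inv_mul_cancel_right]
        exact hcon)
      exact mul_inv_eq_one.1 key
    unfold orb
    rw [tsum_eq_single γ₀ (fun γ hγ => by
        show Q ((γ : H) * h) * conj (Q' ((γ : H) * h)) = 0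
        rw [hQ _ (hz γ hγ), zero_mul]),
      tsum_eq_single γ₀ (fun γ hγ => hQ _ (hz γ hγ)), tsum_eq_single γ₀ (fun γ hγ => hQ' _ (hz γ hγ))]
  · push Not at hne
    unfold orb
    have e1 : ∀ γ : Γ, Q ((γ : H) * h) = 0 := fun γ => hQ _ (hne γ)
    simp [e1]

theorem orb_mul_inv {Q f : H → ℂ} (hf : ∀ (γ : Γ) h, f (γ * h) = f h) (h : H) :
    orb Γ (fun h => Q h * f h) h = orb Γ Q h * f h := by
  unfold orb
  rw [← tsum_mul_right]
  refine tsum_congr fun γ => ?_
  show Q ((γ : H) * h) * f ((γ : H) * h) = Q ((γ : H) * h) * f h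
  rw [hf]

theorem petersson_abstract (hF : IsFundamentalDomain Γ F μ) (hFm : MeasurableSet F)
    {J : Type*} [Fintype J] [DecidableEq J] {f : J → H → ℂ} (hfm : ∀ j, Measurable (f j))
    (hf : ∀ j (γ : Γ) h, f j (γ * h) = f j h)
    (ho : ∀ i j, ∫ h in F, f i h * conj (f j h) ∂μ = if i = j then 1 else 0)
    {B : Set H} (hB : MeasurableSet B) (hinj : ∀ (γ : Γ) (h : H), h ∈ B → (γ : H) * h ∈ B → γ = 1)
    {Q Q' : H → ℂ} (hQm : Measurable Q) (hQB : ∀ h ∉ B, Q h = 0) (hQ : Integrable (fun h => ‖Q h‖ ^ 2) μ)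
    (hQm' : Measurable Q') (hQB' : ∀ h ∉ B, Q' h = 0) (hQ' : Integrable (fun h => ‖Q' h‖ ^ 2) μ)
    {c : J → ℂ} (hspan : ∀ᵐ h ∂(μ.restrict F), conj (orb Γ Q' h) = ∑ j, c j * f j h) :
    ∑ j, (∫ h, Q h * f j h ∂μ) * conj (∫ h, Q' h * f j h ∂μ) = ∫ h, Q h * conj (Q' h) ∂μ := by
  have hcov : ∀ᵐ h ∂μ, ∃ γ : Γ, (γ : H) * h ∈ F := hF.ae_covers
  have hf2 : ∀ j, ∫⁻ h in F, ENNReal.ofReal (‖f j h‖ ^ 2) ∂μ ≠ ∞ := by
    intro j
    have h1 := orth_sum (μ.restrict F) f (fun j => (hfm j).aestronglyMeasurable) ho (Pi.single j 1)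
    have e1 : ∀ x, ∑ i, (Pi.single j (1 : ℂ) : J → ℂ) i * f i x = f j x := by
      intro x
      rw [Finset.sum_eq_single j]
      · simp
      · intro b _ hb
        simp [hb]
      · simp
    simp_rw [e1] at h1
    rw [h1]
    exact ENNReal.ofReal_ne_top
  have hint : ∀ j, Integrable (fun h => Q h * f j h) μ := fun j =>
    integrable_supp hFm hcov (hfm j) (hf j) (hf2 j) hB hinj hQm hQB hQ
  have hint' : ∀ j, Integrable (fun h => Q' h * f j h) μ := fun j =>
    integrable_supp hFm hcov (hfm j) (hf j) (hf2 j) hB hinj hQm' hQB' hQ'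
  have hR : ∀ j, ∫ h, Q h * f j h ∂μ = ∫ h in F, orb Γ Q h * f j h ∂μ := by
    intro j
    have hqm : Measurable fun h => Q h * f j h := hQm.mul (hfm j)
    rw [unfold_eq hF hqm (hint j)]
    exact integral_congr_ae (Filter.Eventually.of_forall fun h => orb_mul_inv (hf j) h)
  have hR' : ∀ j, ∫ h, Q' h * f j h ∂μ = ∫ h in F, orb Γ Q' h * f j h ∂μ := by
    intro j
    have hqm : Measurable fun h => Q' h * f j h := hQm'.mul (hfm j)
    rw [unfold_eq hF hqm (hint' j)]
    exact integral_congr_ae (Filter.Eventually.of_forall fun h => orb_mul_inv (hf j) h)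
  have hQQ : Integrable (fun h => Q h * conj (Q' h)) μ := by
    have h1 : MemLp Q 2 μ := (memLp_two_iff_integrable_sq_norm hQm.aestronglyMeasurable).2 hQ
    have h2 : MemLp Q' 2 μ := (memLp_two_iff_integrable_sq_norm hQm'.aestronglyMeasurable).2 hQ'
    exact h1.integrable_mul h2.star
  have hQQm : Measurable fun h => Q h * conj (Q' h) := hQm.mul (Complex.continuous_conj.measurable.comp hQm')
  -- the coefficients
  have hc : ∀ i, c i = conj (∫ h, Q' h * f i h ∂μ) := by
    intro i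
    have hff : ∀ j, Integrable (fun h => f j h * conj (f i h)) (μ.restrict F) := by
      intro j
      have hself : ∀ j, MemLp (f j) 2 (μ.restrict F) := by
        intro j
        rw [memLp_two_iff_integrable_sq_norm (hfm j).aestronglyMeasurable]
        refine ⟨(((hfm j).norm).pow_const 2).aestronglyMeasurable, ?_⟩
        rw [hasFiniteIntegral_iff_ofReal (Filter.Eventually.of_forall fun s => sq_nonneg _)]
        exact (hf2 j).lt_top
      exact (hself j).integrable_mul (hself i).star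
    rw [hR' i, ← integral_conj]
    have e1 : ∫ h in F, conj (orb Γ Q' h * f i h) ∂μ = ∫ h in F, (∑ j, c j * f j h) * conj (f i h) ∂μ := by
      refine integral_congr_ae ?_
      filter_upwards [hspan] with h hh
      rw [map_mul, hh]
    rw [e1]
    have e2 : ∀ h, (∑ j, c j * f j h) * conj (f i h) = ∑ j, c j * (f j h * conj (f i h)) := by
      intro h
      rw [Finset.sum_mul]
      exact Finset.sum_congr rfl fun j _ => mul_assoc _ _ _
    simp_rw [e2]
    rw [integral_finsetSum _ fun j _ => (hff j).const_mul _]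
    simp_rw [integral_const_mul, ho]
    simp
  rw [unfold_eq hF hQQm hQQ]
  have e3 : ∫ h in F, ∑' γ : Γ, Q ((γ : H) * h) * conj (Q' ((γ : H) * h)) ∂μ =
      ∫ h in F, ∑ j, c j * (orb Γ Q h * f j h) ∂μ := by
    refine integral_congr_ae ?_
    filter_upwards [hspan] with h hh
    have := orb_mul hinj hQB hQB' h
    have e4 : ∑' γ : Γ, Q ((γ : H) * h) * conj (Q' ((γ : H) * h)) = orb Γ (fun h => Q h * conj (Q' h)) h := rfl
    rw [e4, this, hh, Finset.mul_sum]
    exact Finset.sum_congr rfl fun j _ => by ring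
  rw [e3]
  have hintF : ∀ j, Integrable (fun h => orb Γ Q h * f j h) (μ.restrict F) := by
    intro j
    have h1 := hint j
    have h2 := hF.lintegral_eq_tsum'' (fun h => ‖Q h * f j h‖ₑ)
    have hm1 : Measurable fun h => orb Γ Q h := by
      have : Measurable fun h => ∑' γ : Γ, Q ((γ : H) * h) := Measurable.tsum fun γ =>
        hQm.comp (measurable_const_mul (γ : H))
      exact this
    refine ⟨(hm1.mul (hfm j)).aestronglyMeasurable, ?_⟩
    rw [hasFiniteIntegral_iff_enorm]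
    have h3 : ∫⁻ h in F, ‖orb Γ Q h * f j h‖ₑ ∂μ ≤ ∫⁻ h, ‖Q h * f j h‖ₑ ∂μ := by
      rw [h2, ← lintegral_tsum (fun γ => by
        have hm2 : Measurable fun h => Q h * f j h := hQm.mul (hfm j)
        exact ((hm2.comp (measurable_const_mul (γ : H))).enorm).aemeasurable)]
      refine lintegral_mono fun h => ?_
      rw [← orb_mul_inv (hf j) h]
      exact enorm_tsum_le_tsum_enorm
    exact lt_of_le_of_lt h3 h1.2
  rw [integral_finsetSum _ fun j _ => (hintF j).const_mul _]
  refine Finset.sum_congr rfl fun j _ => ?_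
  rw [integral_const_mul, hc j, hR j]
  ring

end unfolding

end Pool.Agent.H496
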