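import Mathlib
import Pool.Agent.H496.E1.Pet

/-! The Petersson formula for generic forms. -/

set_option autoImplicit false
set_option linter.unusedSectionVars false

namespace Pool.Agent.H496

open MeasureTheory Set Function Module
open scoped ENNReal NNReal ComplexConjugate

section
variable {k V : Type*} [Field k] {L : V → Type*} [∀ v, NormedField (L v)] {e : ∀ v, k →+* L v}
variable {UA S H : Type*} [Group UA] [MeasurableSpace UA] [MeasurableSpace S] [Group H]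
  [MeasurableSpace H]

/-- The `ψ`-average of the kernel over the unipotent group. -/
noncomputable def Kf (ω : Measure UA) (ι : UA →* H) (ψ : UA → ℂ) (κ : H → ℂ) (g h : H) : ℂ :=
  ∫ u, ψ u * κ (g⁻¹ * (ι u * h)) ∂ω

theorem Kf_equiv [MeasurableMul UA] (ω : Measure UA) [ω.IsMulRightInvariant] (ι : UA →* H) {ψ : UA → ℂ}
    (hψm : ∀ u v, ψ (u * v) = ψ u * ψ v) (hψ1 : ∀ u, ‖ψ u‖ = 1) (κ : H → ℂ) (g : H) (u₀ : UA) (h : H) :
    Kf ω ι ψ κ g (ι u₀ * h) = conj (ψ u₀) * Kf ω ι ψ κ g h := by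
  have h1 : ψ u₀ * conj (ψ u₀) = 1 := by
    rw [Complex.mul_conj, Complex.normSq_eq_norm_sq, hψ1]
    norm_num
  unfold Kf
  rw [← integral_const_mul, ← integral_mul_right_eq_self (fun u => conj (ψ u₀) * (ψ u * κ (g⁻¹ * (ι u * h)))) u₀]
  refine integral_congr_ae (Filter.Eventually.of_forall fun u => ?_)
  show ψ u * κ (g⁻¹ * (ι u * (ι u₀ * h))) = conj (ψ u₀) * (ψ (u * u₀) * κ (g⁻¹ * (ι (u * u₀) * h)))
  rw [hψm, map_mul, mul_assoc (ι u)]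
  calc ψ u * κ (g⁻¹ * (ι u * (ι u₀ * h))) = ψ u * κ (g⁻¹ * (ι u * (ι u₀ * h))) * (ψ u₀ * conj (ψ u₀)) := by
        rw [h1, mul_one]
    _ = _ := by ring

/-- The summand of the Poincaré series: `Kf` on the set `Ω σ(S)`, which represents `U(k) \ H`. -/
noncomputable def Qf (ω : Measure UA) (ι : UA →* H) (ψ : UA → ℂ) (Ω : Set UA) (Φ : UA × S ≃ᵐ H) (κ : H → ℂ)
    (g : H) : H → ℂ :=
  {h | (Φ.symm h).1 ∈ Ω}.indicator (Kf ω ι ψ κ g)

theorem petersson_sep (he : ProductFormula e) {Γ : Subgroup H} {N : ℕ} {r : Γ →* Matrix (Fin N) (Fin N) k}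
    {τ : ∀ v, H →* Matrix (Fin N) (Fin N) (L v)}
    (hτ : ∀ v (γ : Γ), τ v (γ : H) = (r γ).map (e v)) {ι : UA →* H} (hι : ∀ v u, IsUni (τ v (ι u)))
    (hU : ∀ γ : Γ, IsUni (r γ) → ∃ ν, ι ν = (γ : H)) {ω : Measure UA} {Ω : Set UA}
    (hfd : ∀ u : UA, ∃! ν : rat Γ.subtype ι, (ν : UA) * u ∈ Ω) {σ : S → H} {Φ : UA × S ≃ᵐ H}
    (hΦ : ∀ u s, Φ (u, s) = ι u * σ s) {ψ : UA → ℂ} {Z : Set H}
    (hlow : ∀ i j : Fin N, j < i → ∃ c : V → ℝ, IsSmall c ∧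
      ∀ z ∈ Z, ∀ z' ∈ Z, ∀ v, ‖τ v (z' * z⁻¹) i j‖ ≤ c v)
    (hdiag : ∀ i : Fin N, ∃ c : V → ℝ, IsSmall c ∧
      ∀ z ∈ Z, ∀ z' ∈ Z, ∀ v, ‖τ v (z' * z⁻¹) i i - 1‖ ≤ c v)
    {γ : Γ} {u u' : UA} {s s' : S} (hu : u ∈ Ω) (hu' : u' ∈ Ω) (hs : ∃ x, ι x * σ s ∈ Z)
    (hs' : ∃ x, ι x * σ s' ∈ Z) (hγ : (γ : H) * Φ (u, s) = Φ (u', s')) : γ = 1 := by
  obtain ⟨x, hx⟩ := hs
  obtain ⟨x', hx'⟩ := hs'
  have e1 : (γ : H) = ι (u' * x'⁻¹) * ((ι x' * σ s') * (ι x * σ s)⁻¹) * ι (x * u⁻¹) := by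
    rw [hΦ, hΦ] at hγ
    have h1 : (γ : H) = ι u' * σ s' * (σ s)⁻¹ * (ι u)⁻¹ := by
      have : (γ : H) = γ * (ι u * σ s) * (σ s)⁻¹ * (ι u)⁻¹ := by group
      rw [this, hγ]
    rw [h1]
    simp only [map_mul, map_inv, mul_inv_rev]
    group
  have e2 : ∀ v, (r γ).map (e v) = τ v (ι (u' * x'⁻¹)) * τ v ((ι x' * σ s') * (ι x * σ s)⁻¹) *
      τ v (ι (x * u⁻¹)) := by
    intro v
    rw [← hτ, ← map_mul (τ v), ← map_mul (τ v), ← e1]
  obtain ⟨t1, t2⟩ := tri_sep he (fun v => hι v _) (fun v => hι v _) e2 (fun i j hij => by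
    obtain ⟨c, hc1, hc2⟩ := hlow i j hij
    exact ⟨c, hc1, fun v => hc2 _ hx _ hx' v⟩)
  have huni : IsUni (r γ) := by
    refine ⟨t1, fun i => ?_⟩
    obtain ⟨c, hc1, hc2⟩ := hdiag i
    have : r γ i i - 1 = 0 := eq_zero_of_small he hc1 fun v => by
      rw [map_sub, map_one, t2 i v]
      exact hc2 _ hx _ hx' v
    exact sub_eq_zero.1 this
  obtain ⟨ν, hν⟩ := hU γ huni
  have e3 : Φ (ν * u, s) = Φ (u', s') := by
    rw [← hγ, hΦ, hΦ, map_mul, hν, mul_assoc]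
  have e4 := Φ.injective e3
  have e5 : ν * u = u' := congrArg Prod.fst e4
  obtain ⟨ν₀, _, huniq⟩ := hfd u
  have hνr : ν ∈ rat Γ.subtype ι := ⟨γ, hν.symm⟩
  have a1 := huniq ⟨ν, hνr⟩ (by show ν * u ∈ Ω; rw [e5]; exact hu')
  have a2 := huniq 1 (by show (1 : UA) * u ∈ Ω; rw [one_mul]; exact hu)
  have a3 : (⟨ν, hνr⟩ : rat Γ.subtype ι) = 1 := a1.trans a2.symm
  have a4 : ν = 1 := congrArg Subtype.val a3
  rw [a4, map_one] at hν
  exact Subtype.ext hν.symm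

theorem petersson [MeasurableMul UA] [MeasurableMul H] (he : ProductFormula e) {Γ : Subgroup H} [Countable Γ]
    {N : ℕ} {r : Γ →* Matrix (Fin N) (Fin N) k}
    {τ : ∀ v, H →* Matrix (Fin N) (Fin N) (L v)}
    (hτ : ∀ v (γ : Γ), τ v (γ : H) = (r γ).map (e v)) {ι : UA →* H} (hι : ∀ v u, IsUni (τ v (ι u)))
    (hU : ∀ γ : Γ, IsUni (r γ) → ∃ ν, ι ν = (γ : H)) {ω : Measure UA} [SFinite ω] [ω.IsMulLeftInvariant]
    [ω.IsMulRightInvariant] {Ω : Set UA} (hΩ : MeasurableSet Ω) (hΩfin : ω Ω ≠ ∞)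
    (hfd : ∀ u : UA, ∃! ν : rat Γ.subtype ι, (ν : UA) * u ∈ Ω) {μ : Measure H} [SFinite μ] [μ.IsMulLeftInvariant]
    {ds : Measure S} [SFinite ds] {σ : S → H} {Φ : UA × S ≃ᵐ H}
    (hΦ : ∀ u s, Φ (u, s) = ι u * σ s) (hΦm : MeasurePreserving Φ (ω.prod ds) μ)
    {ψ : UA → ℂ} (hψmeas : Measurable ψ) (hψm : ∀ u v, ψ (u * v) = ψ u * ψ v)
    (hψ1 : ∀ u, ‖ψ u‖ = 1) (hψr : ∀ ν ∈ rat Γ.subtype ι, ψ ν = 1)
    {F : Set H} (hFm : MeasurableSet F) (hF : IsFundamentalDomain Γ F μ)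
    {J : Type*} [Fintype J] [DecidableEq J] {f : J → H → ℂ} (hfm : ∀ j, Measurable (f j))
    (hf : ∀ j (γ : Γ) h, f j (γ * h) = f j h)
    (ho : ∀ i j, ∫ h in F, f i h * conj (f j h) ∂μ = if i = j then 1 else 0)
    {Z : Set H}
    (hlow : ∀ i j : Fin N, j < i → ∃ c : V → ℝ, IsSmall c ∧
      ∀ z ∈ Z, ∀ z' ∈ Z, ∀ v, ‖τ v (z' * z⁻¹) i j‖ ≤ c v)
    (hdiag : ∀ i : Fin N, ∃ c : V → ℝ, IsSmall c ∧
      ∀ z ∈ Z, ∀ z' ∈ Z, ∀ v, ‖τ v (z' * z⁻¹) i i - 1‖ ≤ c v)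
    {κ κ' : H → ℂ} {g g' : H} (hκm : Measurable κ) (hκm' : Measurable κ')
    (hκ : ∀ h, κ (g⁻¹ * h) ≠ 0 → h ∈ Z) (hκ' : ∀ h, κ' (g'⁻¹ * h) ≠ 0 → h ∈ Z)
    (hK : Integrable (fun s => ‖Kpsi ω ι ψ σ κ g s‖ ^ 2) ds)
    (hK' : Integrable (fun s => ‖Kpsi ω ι ψ σ κ' g' s‖ ^ 2) ds) {Λ Λ' : J → ℂ}
    (hΛ : ∀ j h, ∫ y, f j (h * y) * κ y ∂μ = Λ j * f j h)
    (hΛ' : ∀ j h, ∫ y, f j (h * y) * κ' y ∂μ = Λ' j * f j h)
    (hint : ∀ j, Integrable (fun p : UA × H => f j (ι p.1 * p.2) * κ (g⁻¹ * p.2)) ((ω.restrict Ω).prod μ))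
    (hint' : ∀ j, Integrable (fun p : UA × H => f j (ι p.1 * p.2) * κ' (g'⁻¹ * p.2)) ((ω.restrict Ω).prod μ))
    {c : J → ℂ}
    (hspan : ∀ᵐ h ∂(μ.restrict F), conj (orb Γ (Qf ω ι ψ Ω Φ κ' g') h) = ∑ j, c j * f j h) :
    ∑ j, Λ j * conj (Λ' j) * (Wh ω Ω ι ψ (f j) g * conj (Wh ω Ω ι ψ (f j) g')) =
      ω.real Ω * ∫ s, Kpsi ω ι ψ σ κ g s * conj (Kpsi ω ι ψ σ κ' g' s) ∂ds := by
  classical
  have hSne : Nonempty S := ⟨(Φ.symm 1).2⟩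
  have hιinj : Injective ι := by
    intro u u' h
    obtain ⟨s⟩ := hSne
    have : Φ (u, s) = Φ (u', s) := by rw [hΦ, hΦ, h]
    exact congrArg Prod.fst (Φ.injective this)
  have : Countable (rat Γ.subtype ι) := by
    choose γ hγ using fun ν : rat Γ.subtype ι => ν.2
    refine (show Injective γ from fun ν ν' h => ?_).countable
    apply Subtype.ext
    apply hιinj
    rw [← hγ ν, ← hγ ν', h]
  -- general facts on a kernel
  have facts : ∀ (κ : H → ℂ) (g : H) (Λ : J → ℂ), Measurable κ → (∀ h, κ (g⁻¹ * h) ≠ 0 → h ∈ Z) →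
      Integrable (fun s => ‖Kpsi ω ι ψ σ κ g s‖ ^ 2) ds →
      (∀ j h, ∫ y, f j (h * y) * κ y ∂μ = Λ j * f j h) →
      (∀ j, Integrable (fun p : UA × H => f j (ι p.1 * p.2) * κ (g⁻¹ * p.2)) ((ω.restrict Ω).prod μ)) →
      Measurable (Qf ω ι ψ Ω Φ κ g) ∧ Measurable (Kpsi ω ι ψ σ κ g) ∧
      (∀ u s, Qf ω ι ψ Ω Φ κ g (Φ (u, s)) = Ω.indicator (fun u => conj (ψ u)) u * Kpsi ω ι ψ σ κ g s) ∧
      (∀ s, Kpsi ω ι ψ σ κ g s ≠ 0 → ∃ x, ι x * σ s ∈ Z) ∧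
      Integrable (fun h => ‖Qf ω ι ψ Ω Φ κ g h‖ ^ 2) μ ∧
      (∀ j, Integrable (fun h => Qf ω ι ψ Ω Φ κ g h * f j h) μ →
        ∫ h, Qf ω ι ψ Ω Φ κ g h * f j h ∂μ = Λ j * Wh ω Ω ι ψ (f j) g) := by
    intro κ g Λ hκm hκ hK hΛ hint
    have hval : ∀ u s, Qf ω ι ψ Ω Φ κ g (Φ (u, s)) =
        Ω.indicator (fun u => conj (ψ u)) u * Kpsi ω ι ψ σ κ g s := by
      intro u s
      unfold Qf
      by_cases hu : u ∈ Ω
      · rw [indicator_of_mem hu, indicator_of_mem (by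
          show (Φ.symm (Φ (u, s))).1 ∈ Ω
          rw [Φ.symm_apply_apply]
          exact hu), hΦ, Kf_equiv ω ι hψm hψ1]
        rfl
      · rw [indicator_of_notMem hu, indicator_of_notMem (by
          show ¬ (Φ.symm (Φ (u, s))).1 ∈ Ω
          rw [Φ.symm_apply_apply]
          exact hu), zero_mul]
    have hKm : Measurable (Kpsi ω ι ψ σ κ g) := by
      have hκ'm : Measurable fun p : UA × S => ψ p.1 * κ (g⁻¹ * Φ p) :=
        (hψmeas.comp measurable_fst).mul (hκm.comp ((measurable_const_mul g⁻¹).comp Φ.measurable))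
      have h1 : StronglyMeasurable fun s => ∫ u, ψ u * κ (g⁻¹ * Φ (u, s)) ∂ω :=
        (StronglyMeasurable.integral_prod_left' (μ := ω) hκ'm.stronglyMeasurable)
      have h2 : Kpsi ω ι ψ σ κ g = fun s => ∫ u, ψ u * κ (g⁻¹ * Φ (u, s)) ∂ω := by
        funext s
        rw [Kpsi]
        simp_rw [hΦ]
      rw [h2]
      exact h1.measurable
    have hind : Measurable (Ω.indicator fun u => conj (ψ u)) :=
      (Complex.continuous_conj.measurable.comp hψmeas).indicator hΩ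
    have hQm : Measurable (Qf ω ι ψ Ω Φ κ g) := by
      have h1 : Qf ω ι ψ Ω Φ κ g = (fun p : UA × S => Ω.indicator (fun u => conj (ψ u)) p.1 *
          Kpsi ω ι ψ σ κ g p.2) ∘ Φ.symm := by
        funext h
        have := hval (Φ.symm h).1 (Φ.symm h).2
        rw [Prod.mk.eta, Φ.apply_symm_apply] at this
        exact this
      rw [h1]
      exact ((hind.comp measurable_fst).mul (hKm.comp measurable_snd)).comp Φ.symm.measurable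
    have hnorm : ∀ u, ‖Ω.indicator (fun u => conj (ψ u)) u‖ ^ 2 = Ω.indicator (fun _ => (1 : ℝ)) u := by
      intro u
      by_cases hu : u ∈ Ω
      · rw [indicator_of_mem hu, indicator_of_mem hu, RCLike.norm_conj, hψ1, one_pow]
      · rw [indicator_of_notMem hu, indicator_of_notMem hu]
        simp
    have hΩi : Integrable (Ω.indicator fun _ => (1 : ℝ)) ω :=
      (integrable_indicator_iff hΩ).2 (integrableOn_const hΩfin)
    refine ⟨hQm, hKm, hval, ?_, ?_, ?_⟩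
    · intro s hs
      by_contra hcon
      push Not at hcon
      apply hs
      rw [Kpsi]
      have : ∀ x, ψ x * κ (g⁻¹ * (ι x * σ s)) = 0 := fun x => by
        by_contra h
        exact hcon x (hκ _ (right_ne_zero_of_mul h))
      simp_rw [this]
      exact integral_zero _ _
    · have h1 : Integrable (fun p : UA × S => ‖Qf ω ι ψ Ω Φ κ g (Φ p)‖ ^ 2) (ω.prod ds) := by
        have h2 : Integrable (fun p : UA × S => Ω.indicator (fun _ => (1 : ℝ)) p.1 * ‖Kpsi ω ι ψ σ κ g p.2‖ ^ 2)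
            (ω.prod ds) := hΩi.mul_prod hK
        refine h2.congr (Filter.Eventually.of_forall fun p => ?_)
        show Ω.indicator (fun _ => (1 : ℝ)) p.1 * ‖Kpsi ω ι ψ σ κ g p.2‖ ^ 2 = ‖Qf ω ι ψ Ω Φ κ g (Φ (p.1, p.2))‖ ^ 2
        rw [hval, norm_mul, mul_pow, hnorm]
      exact (hΦm.integrable_comp_emb Φ.measurableEmbedding).1 h1
    · intro j hj
      have heig := Wh_eigen ω μ ds ι ψ hψmeas hψ1 σ Φ hΦ hΦm (f j) κ g
        (fun u s => Wh_equiv ω hΩ Γ.subtype ι hfd ψ hψm hψ1 hψr (f j) (hf j) u (σ s)) (hΛ j) (hint j)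
      rw [heig, ← hΦm.integral_comp Φ.measurableEmbedding]
      have hj' : Integrable (fun p : UA × S => Qf ω ι ψ Ω Φ κ g (Φ p) * f j (Φ p)) (ω.prod ds) :=
        hΦm.integrable_comp_of_integrable hj
      rw [integral_prod_symm _ hj']
      refine integral_congr_ae (Filter.Eventually.of_forall fun s => ?_)
      show ∫ u, Qf ω ι ψ Ω Φ κ g (Φ (u, s)) * f j (Φ (u, s)) ∂ω = Wh ω Ω ι ψ (f j) (σ s) * Kpsi ω ι ψ σ κ g s
      rw [Wh, ← integral_mul_const, ← integral_indicator hΩ]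
      refine integral_congr_ae (Filter.Eventually.of_forall fun u => ?_)
      show Qf ω ι ψ Ω Φ κ g (Φ (u, s)) * f j (Φ (u, s)) =
        Ω.indicator (fun u => f j (ι u * σ s) * conj (ψ u) * Kpsi ω ι ψ σ κ g s) u
      rw [hval, hΦ]
      by_cases hu : u ∈ Ω
      · rw [indicator_of_mem hu, indicator_of_mem hu]
        ring
      · rw [indicator_of_notMem hu, indicator_of_notMem hu]
        ring
  obtain ⟨q1, q2, q3, q4, q5, q6⟩ := facts κ g Λ hκm hκ hK hΛ hint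
  obtain ⟨q1', q2', q3', q4', q5', q6'⟩ := facts κ' g' Λ' hκm' hκ' hK' hΛ' hint'
  set B : Set H := Φ.symm ⁻¹' (Ω ×ˢ ({s | Kpsi ω ι ψ σ κ g s ≠ 0} ∪ {s | Kpsi ω ι ψ σ κ' g' s ≠ 0})) with hB
  have hBm : MeasurableSet B := Φ.symm.measurable (hΩ.prod
    (((measurableSet_singleton (0 : ℂ)).compl.preimage q2).union ((measurableSet_singleton (0 : ℂ)).compl.preimage q2')))
  have hmem : ∀ h ∈ B, ∃ u ∈ Ω, ∃ s, (∃ x, ι x * σ s ∈ Z) ∧ Φ (u, s) = h := by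
    intro h hh
    refine ⟨(Φ.symm h).1, hh.1, (Φ.symm h).2, ?_, Φ.apply_symm_apply h⟩
    rcases hh.2 with h1 | h1
    · exact q4 _ h1
    · exact q4' _ h1
  have hinj : ∀ (γ : Γ) (h : H), h ∈ B → (γ : H) * h ∈ B → γ = 1 := by
    intro γ h h1 h2
    obtain ⟨u, hu, s, hs, hus⟩ := hmem h h1
    obtain ⟨u', hu', s', hs', hus'⟩ := hmem _ h2
    refine petersson_sep he hτ hι hU (ω := ω) (ψ := ψ) hfd hΦ hlow hdiag hu hu' hs hs' ?_
    rw [hus, hus']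
  have hzero : ∀ (κ : H → ℂ) (g : H), (∀ u s, Qf ω ι ψ Ω Φ κ g (Φ (u, s)) =
      Ω.indicator (fun u => conj (ψ u)) u * Kpsi ω ι ψ σ κ g s) →
      ({s | Kpsi ω ι ψ σ κ g s ≠ 0} ⊆ {s | Kpsi ω ι ψ σ κ g s ≠ 0}) →
      ∀ h, ¬ ((Φ.symm h).1 ∈ Ω ∧ Kpsi ω ι ψ σ κ g (Φ.symm h).2 ≠ 0) → Qf ω ι ψ Ω Φ κ g h = 0 := by
    intro κ g hv _ h hh
    have := hv (Φ.symm h).1 (Φ.symm h).2
    rw [Prod.mk.eta, Φ.apply_symm_apply] at this
    rw [this]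
    by_cases h1 : (Φ.symm h).1 ∈ Ω
    · have h2 : Kpsi ω ι ψ σ κ g (Φ.symm h).2 = 0 := by
        by_contra h3
        exact hh ⟨h1, h3⟩
      rw [h2, mul_zero]
    · rw [indicator_of_notMem h1, zero_mul]
  have hQB : ∀ h ∉ B, Qf ω ι ψ Ω Φ κ g h = 0 := fun h hh =>
    hzero κ g q3 subset_rfl h fun hcon => hh ⟨hcon.1, Or.inl hcon.2⟩
  have hQB' : ∀ h ∉ B, Qf ω ι ψ Ω Φ κ' g' h = 0 := fun h hh =>
    hzero κ' g' q3' subset_rfl h fun hcon => hh ⟨hcon.1, Or.inr hcon.2⟩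
  have hcov : ∀ᵐ h ∂μ, ∃ γ : Γ, (γ : H) * h ∈ F := hF.ae_covers
  have hf2 : ∀ j, ∫⁻ h in F, ENNReal.ofReal (‖f j h‖ ^ 2) ∂μ ≠ ∞ := by
    intro j
    have h1 := orth_sum (μ.restrict F) f (fun j => (hfm j).aestronglyMeasurable) ho (Pi.single j 1)
    have e1 : ∀ x, ∑ i, (Pi.single j (1 : ℂ) : J → ℂ) i * f i x = f j x := by
      intro x
      rw [Finset.sum_eq_single j]
      · simp
      · intro b _ hb
        simp [hb]
      · simp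
    simp_rw [e1] at h1
    rw [h1]
    exact ENNReal.ofReal_ne_top
  have key := petersson_abstract hF hFm hfm hf ho hBm hinj q1 hQB q5 q1' hQB' q5' hspan
  have e1 : ∀ j, ∫ h, Qf ω ι ψ Ω Φ κ g h * f j h ∂μ = Λ j * Wh ω Ω ι ψ (f j) g := fun j =>
    q6 j (integrable_supp hFm hcov (hfm j) (hf j) (hf2 j) hBm hinj q1 hQB q5)
  have e2 : ∀ j, ∫ h, Qf ω ι ψ Ω Φ κ' g' h * f j h ∂μ = Λ' j * Wh ω Ω ι ψ (f j) g' := fun j =>
    q6' j (integrable_supp hFm hcov (hfm j) (hf j) (hf2 j) hBm hinj q1' hQB' q5')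
  simp_rw [e1, e2] at key
  have e3 : ∀ j, Λ j * conj (Λ' j) * (Wh ω Ω ι ψ (f j) g * conj (Wh ω Ω ι ψ (f j) g')) =
      Λ j * Wh ω Ω ι ψ (f j) g * conj (Λ' j * Wh ω Ω ι ψ (f j) g') := by
    intro j
    rw [map_mul]
    ring
  simp_rw [e3]
  rw [key, ← hΦm.integral_comp Φ.measurableEmbedding]
  have e4 : ∀ p : UA × S, Qf ω ι ψ Ω Φ κ g (Φ p) * conj (Qf ω ι ψ Ω Φ κ' g' (Φ p)) =
      Ω.indicator (fun _ => (1 : ℂ)) p.1 * (Kpsi ω ι ψ σ κ g p.2 * conj (Kpsi ω ι ψ σ κ' g' p.2)) := by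
    intro p
    have h1 := q3 p.1 p.2
    have h2 := q3' p.1 p.2
    rw [Prod.mk.eta] at h1 h2
    rw [h1, h2]
    by_cases hu : p.1 ∈ Ω
    · simp only [indicator_of_mem hu]
      have h3 : conj (ψ p.1) * conj (conj (ψ p.1)) = 1 := by
        rw [Complex.mul_conj, Complex.normSq_eq_norm_sq, RCLike.norm_conj, hψ1]
        norm_num
      rw [map_mul]
      calc conj (ψ p.1) * Kpsi ω ι ψ σ κ g p.2 * (conj (conj (ψ p.1)) * conj (Kpsi ω ι ψ σ κ' g' p.2)) =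
          (conj (ψ p.1) * conj (conj (ψ p.1))) * (Kpsi ω ι ψ σ κ g p.2 * conj (Kpsi ω ι ψ σ κ' g' p.2)) := by ring
        _ = _ := by rw [h3]
    · simp only [indicator_of_notMem hu]
      simp
  simp_rw [e4]
  rw [integral_prod_mul (Ω.indicator fun _ => (1 : ℂ)) (fun s => Kpsi ω ι ψ σ κ g s * conj (Kpsi ω ι ψ σ κ' g' s)),
    integral_indicator hΩ]
  simp [measureReal_def]

end

end Pool.Agent.H496
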